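import Pool.Agent.Helper6.TRI.GDefs
import Pool.Agent.Helper21.TS.Rel

/-!
# TRI: tools for limits along an ultrafilter, and `line_of_relations` for any coordinate
-/

set_option autoImplicit false

namespace Pool.Agent.TRI

open Module MvPolynomial

universe u

/-! ### helpers -/

/-- three independent coordinates -/
theorem three77 {κ V : Type*} [Field κ] [AddCommGroup V] [Module κ V] {n : ℕ} (ξ : Fin n → V)
    (h : ¬ finrank κ (Submodule.span κ (Set.range ξ)) ≤ 2) : ∃ g : Fin 3 → Fin n, LinearIndependent κ fun i => ξ (g i) := by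
  obtain ⟨ι, a, ha, h1, h2⟩ := exists_linearIndependent' κ ξ
  have hfin : Finite ι := Finite.of_injective a ha
  have := Fintype.ofFinite ι
  have h3 : finrank κ (Submodule.span κ (Set.range (ξ ∘ a))) = Fintype.card ι := finrank_span_eq_card h2
  rw [h1] at h3
  rw [h3] at h
  push Not at h
  have h4 : 3 ≤ Fintype.card ι := h
  obtain ⟨e⟩ : Nonempty (Fin 3 ↪ ι) := by
    apply Function.Embedding.nonempty_of_card_le
    rw [Fintype.card_fin]
    exact h4
  exact ⟨fun i => a (e i), h2.comp e e.injective⟩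

/-- a finite choice along an ultrafilter -/
theorem uexists77 {J α : Type*} [Finite α] (U : Ultrafilter J) (p : J → α → Prop) (h : ∀ j, ∃ a, p j a) :
    ∃ a, ∀ᶠ j in (U : Filter J), p j a := by
  by_contra hcon
  push Not at hcon
  have h1 : ∀ a, ∀ᶠ j in (U : Filter J), ¬ p j a := fun a => by
    have := hcon a
    exact Ultrafilter.eventually_not.2 (by simpa using this)
  have h2 : ∀ᶠ j in (U : Filter J), ∀ a, ¬ p j a := Filter.eventually_all.2 h1
  obtain ⟨j, hj⟩ := h2.exists
  obtain ⟨a, ha⟩ := h j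
  exact hj a ha

/-- integral powers under a homomorphism from a product -/
theorem zpow77 {J : Type*} {E : J → Type*} [∀ j, Field (E j)] {F : Type*} [Field F] (π : (∀ j, E j) →+* F) (x : ∀ j, E j)
    (hx : ∀ j, x j ≠ 0) (n : ℤ) : π (fun j => x j ^ n) = π x ^ n := by
  have h0 : π x ≠ 0 := by
    intro h
    have h1 : π (x * fun j => (x j)⁻¹) = 1 := by
      have : (x * fun j => (x j)⁻¹) = 1 := by
        funext j
        rw [Pi.mul_apply, mul_inv_cancel₀ (hx j)]
        rfl
      rw [this, map_one]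
    rw [map_mul, h, zero_mul] at h1
    exact zero_ne_one h1
  cases n with
  | ofNat n =>
    have : (fun j => x j ^ (Int.ofNat n)) = x ^ n := by
      funext j
      rw [Pi.pow_apply]
      simp
    rw [this, map_pow]
    simp
  | negSucc n =>
    have h1 : π (fun j => x j ^ (Int.negSucc n)) * π x ^ (n + 1) = 1 := by
      rw [← map_pow, ← map_mul]
      have : ((fun j => x j ^ (Int.negSucc n)) * x ^ (n + 1)) = 1 := by
        funext j
        rw [Pi.mul_apply, Pi.pow_apply, zpow_negSucc, inv_mul_cancel₀ (pow_ne_zero _ (hx j))]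
        rfl
      rw [this, map_one]
    rw [zpow_negSucc]
    exact eq_inv_of_mul_eq_one_left h1

section

variable {k₀ : Type u} [Field k₀] [CharZero k₀] {N : ℕ} {I : Ideal (MvPolynomial (Fin (N + 1)) k₀)}

/-- `line_of_relations` with any coordinate equal to one -/
theorem line_at77 {M F : Type*} [Field M] [Algebra k₀ M] [Field F] [Algebra k₀ F]
    [Algebra M F] [IsScalarTower k₀ M F] {q : ℕ} (l : Fin q → Fin (N + 1) → M)
    (hl : AlgebraicIndependent k₀ fun p : Fin q × Fin (N + 1) => l p.1 p.2) (y : Fin (N + 1) → F) (h0 : ∃ j, y j = 1)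
    (htr : Algebra.trdeg k₀ (IntermediateField.adjoin k₀ (Set.range y)) ≤ 2) (hnc : ∃ c, Transcendental M (y c))
    (hly : ∀ i, ∑ c, algebraMap M F (l i c) * y c ≠ 0) (a b : Fin q → ℤ) (hab : LinearIndependent ℤ ![a, b]) (τ σ : M)
    (hA : ∏ i, (∑ c, algebraMap M F (l i c) * y c) ^ a i = algebraMap M F τ)
    (hB : ∏ i, (∑ c, algebraMap M F (l i c) * y c) ^ b i = algebraMap M F σ) :
    finrank M (Submodule.span M (Set.range y)) ≤ 2 := by
  obtain ⟨j, hj⟩ := h0
  obtain ⟨e, he⟩ : ∃ e : Equiv.Perm (Fin (N + 1)), e 0 = j := ⟨Equiv.swap 0 j, Equiv.swap_apply_left _ _⟩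
  have hr : Set.range (y ∘ e) = Set.range y := e.surjective.range_comp y
  have hs : ∀ i, ∑ c, algebraMap M F (l i (e c)) * (y ∘ e) c = ∑ c, algebraMap M F (l i c) * y c := fun i =>
    Equiv.sum_comp e fun c => algebraMap M F (l i c) * y c
  have h1 := Pool.Agent.Helper21.TS.line_of_relations (k₀ := k₀) (fun i c => l i (e c))
    (hl.comp (fun p : Fin q × Fin (N + 1) => (p.1, e p.2)) (by
      rintro ⟨p1, p2⟩ ⟨p1', p2'⟩ h
      have h1 := (Prod.mk.inj h).1
      have h2 := e.injective (Prod.mk.inj h).2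
      exact Prod.ext h1 h2)) (y ∘ e)
    (by rw [Function.comp_apply, he, hj]) (by rw [hr]; exact htr)
    (by
      obtain ⟨c, hc⟩ := hnc
      refine ⟨e.symm c, ?_⟩
      rw [Function.comp_apply, Equiv.apply_symm_apply]
      exact hc)
    (fun i => by rw [hs]; exact hly i) a b hab τ σ (by simp only [hs]; exact hA) (by simp only [hs]; exact hB)
  rwa [hr] at h1

end

end Pool.Agent.TRI
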