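import Pool.Agent.Helper24.TRI.Approx

/-!
# TRI, block B4: the sum of the `f s * m s` is at most the degree
-/

set_option autoImplicit false

namespace Pool.Agent.TRI

open Module Pool.Agent.SQ

section

variable {k E : Type*} [Field k] [Field E] [Algebra k E]

theorem one_le77 {V : Submodule k E} (h : (1 : E) ∈ V) : (1 : Submodule k E) ≤ V := by
  rw [Submodule.one_le]
  exact h

theorem mono77 {V : Submodule k E} (h : (1 : E) ∈ V) {n m : ℕ} (hnm : n ≤ m) : V ^ n ≤ V ^ m :=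
  pow_le_pow_right' (one_le77 h) hnm

/-- every element is a quotient of elements of `V ^ N` -/
theorem frac77 {V : Submodule k E} (hC : Crv V) (x : E) : ∃ (N : ℕ) (d : E), d ∈ V ^ N ∧ d ≠ 0 ∧ d * x ∈ V ^ N := by
  have hx : x ∈ IntermediateField.adjoin k (V : Set E) := by
    rw [hC.gen]
    trivial
  induction hx using IntermediateField.adjoin_induction with
  | mem x hx =>
    refine ⟨1, 1, ?_, one_ne_zero, ?_⟩
    · rw [pow_one]; exact hC.one
    · rw [pow_one, one_mul]; exact hx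
  | algebraMap r =>
    refine ⟨1, 1, ?_, one_ne_zero, ?_⟩
    · rw [pow_one]; exact hC.one
    · rw [pow_one, one_mul, Algebra.algebraMap_eq_smul_one]
      exact V.smul_mem _ hC.one
  | add x y _ _ h1 h2 =>
    obtain ⟨N, d, d1, d2, d3⟩ := h1
    obtain ⟨M, e, e1, e2, e3⟩ := h2
    refine ⟨N + M, d * e, ?_, mul_ne_zero d2 e2, ?_⟩
    · rw [pow_add]; exact Submodule.mul_mem_mul d1 e1
    · have e0 : d * e * (x + y) = (d * x) * e + d * (e * y) := by ring
      rw [e0, pow_add]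
      exact Submodule.add_mem _ (Submodule.mul_mem_mul d3 e1) (Submodule.mul_mem_mul d1 e3)
  | inv x _ h1 =>
    obtain ⟨N, d, d1, d2, d3⟩ := h1
    by_cases hx : x = 0
    · refine ⟨0, 1, ?_, one_ne_zero, ?_⟩
      · rw [pow_zero]; exact Submodule.one_le.1 le_rfl
      · rw [hx, inv_zero, mul_zero]; exact Submodule.zero_mem _
    · refine ⟨N, d * x, d3, mul_ne_zero d2 hx, ?_⟩
      rw [mul_assoc, mul_inv_cancel₀ hx, mul_one]
      exact d1
  | mul x y _ _ h1 h2 =>
    obtain ⟨N, d, d1, d2, d3⟩ := h1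
    obtain ⟨M, e, e1, e2, e3⟩ := h2
    refine ⟨N + M, d * e, ?_, mul_ne_zero d2 e2, ?_⟩
    · rw [pow_add]; exact Submodule.mul_mem_mul d1 e1
    · have e0 : d * e * (x * y) = (d * x) * (e * y) := by ring
      rw [e0, pow_add]
      exact Submodule.mul_mem_mul d3 e3

/-- a common denominator -/
theorem comden77 {V : Submodule k E} (hC : Crv V) {I : Type*} (S : Finset I) (x : I → E) :
    ∃ (N : ℕ) (d : E), d ∈ V ^ N ∧ d ≠ 0 ∧ ∀ i ∈ S, d * x i ∈ V ^ N := by
  classical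
  induction S using Finset.induction_on with
  | empty =>
    refine ⟨0, 1, ?_, one_ne_zero, fun i hi => absurd hi (Finset.notMem_empty _)⟩
    rw [pow_zero]; exact Submodule.one_le.1 le_rfl
  | insert a S _ ih =>
    obtain ⟨N, d, d1, d2, d3⟩ := ih
    obtain ⟨M, e, e1, e2, e3⟩ := frac77 hC (x a)
    refine ⟨N + M, d * e, ?_, mul_ne_zero d2 e2, fun i hi => ?_⟩
    · rw [pow_add]; exact Submodule.mul_mem_mul d1 e1
    · rcases Finset.mem_insert.1 hi with rfl | h
      · have e0 : d * e * x i = d * (e * x i) := by ring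
        rw [e0, pow_add]
        exact Submodule.mul_mem_mul d1 e3
      · have e0 : d * e * x i = (d * x i) * e := by ring
        rw [e0, pow_add]
        exact Submodule.mul_mem_mul (d3 i h) e1

theorem mem_lev77 {ω : E → ℝ} (h : RV k ω) {c : ℝ} {x : E} : x ∈ lev h c ↔ x = 0 ∨ c ≤ ω x := Iff.rfl

theorem lev_mono77 {ω : E → ℝ} (h : RV k ω) {c c' : ℝ} (hc : c ≤ c') : lev h c' ≤ lev h c := by
  intro x hx
  rcases hx with hx | hx
  · exact Or.inl hx
  · exact Or.inr (hc.trans hx)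

theorem lev_mul77 {ω : E → ℝ} (h : RV k ω) {c c' : ℝ} {x y : E} (hx : x ∈ lev h c) (hy : y ∈ lev h c') :
    x * y ∈ lev h (c + c') := by
  rcases hx with hx | hx
  · left; rw [hx, zero_mul]
  rcases hy with hy | hy
  · left; rw [hy, mul_zero]
  by_cases hx0 : x = 0
  · left; rw [hx0, zero_mul]
  by_cases hy0 : y = 0
  · left; rw [hy0, mul_zero]
  right
  rw [h.mul x y hx0 hy0]
  linarith

/-- a perturbation does not change the value -/
theorem pert77 {ω : E → ℝ} (h : RV k ω) {a c : ℝ} (hac : a < c) {z w : E} (hz : z ≠ 0) (hza : ω z = a) (hw : w - z ∈ lev h c) :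
    w ≠ 0 ∧ ω w = a := by
  rcases hw with hw | hw
  · have : w = z := by linear_combination hw
    rw [this]; exact ⟨hz, hza⟩
  by_cases h0 : w - z = 0
  · have : w = z := by linear_combination h0
    rw [this]; exact ⟨hz, hza⟩
  have hw0 : w ≠ 0 := by
    intro e
    rw [e, zero_sub, rv_neg24 h z hz] at hw
    linarith
  have e1 : z + (w - z) = w := by ring
  have h1 := rv_lt24 h z (w - z) hz h0 (by rw [e1]; exact hw0) (by linarith)
  rw [e1] at h1
  exact ⟨hw0, by rw [h1, hza]⟩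

/-- linear independence over `k[t]` -/
theorem indep77 {ι : Type*} (ω : ι → E → ℝ) (hω : ∀ s, RV k (ω s)) (W : Submodule k E) (t : E) (ht0 : t ≠ 0) (μ : ι → ℝ)
    (ht : ∀ s, ω s t = μ s) (hμ : ∀ s, 0 ≤ μ s) (hW0 : ∀ s, ∀ z ∈ W, z ∈ lev (hω s) 0)
    (hW : ∀ z ∈ W, z ≠ 0 → ∃ s, ω s z < μ s) (n : ℕ) :
    ∀ Z : Fin n → E, (∀ a, Z a ∈ W) → ∑ a, Z a * t ^ (a : ℕ) = 0 → ∀ a, Z a = 0 := by
  induction n with
  | zero => intro Z _ _ a; exact a.elim0
  | succ n ih =>
    intro Z hZ hsum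
    rw [Fin.sum_univ_succ] at hsum
    simp only [Fin.val_zero, pow_zero, mul_one, Fin.val_succ] at hsum
    have e1 : ∑ a : Fin n, Z a.succ * t ^ ((a : ℕ) + 1) = t * ∑ a : Fin n, Z a.succ * t ^ (a : ℕ) := by
      rw [Finset.mul_sum]
      refine Finset.sum_congr rfl fun a _ => ?_
      ring
    rw [e1] at hsum
    have h0 : Z 0 = 0 := by
      by_contra hne
      obtain ⟨s, hs⟩ := hW _ (hZ 0) hne
      have h1 : ∑ a : Fin n, Z a.succ * t ^ (a : ℕ) ∈ lev (hω s) 0 := by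
        refine Submodule.sum_mem _ fun a _ => ?_
        have h2 : t ^ (a : ℕ) ∈ lev (hω s) 0 := by
          right
          rw [rv_pow24 (hω s) t ht0, ht s]
          exact mul_nonneg (Nat.cast_nonneg _) (hμ s)
        have h3 := lev_mul77 (hω s) (hW0 s _ (hZ a.succ)) h2
        rwa [zero_add] at h3
      have h2 : t ∈ lev (hω s) (μ s) := Or.inr (ht s).ge
      have h3 := lev_mul77 (hω s) h2 h1
      rw [add_zero] at h3
      have h4 : Z 0 = -(t * ∑ a : Fin n, Z a.succ * t ^ (a : ℕ)) := by linear_combination hsum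
      have h5 : Z 0 ∈ lev (hω s) (μ s) := by
        rw [h4]
        exact Submodule.neg_mem _ h3
      rcases h5 with h5 | h5
      · exact hne h5
      · linarith
    rw [h0, zero_add] at hsum
    have h1 : ∑ a : Fin n, Z a.succ * t ^ (a : ℕ) = 0 := (mul_eq_zero.1 hsum).resolve_left ht0
    have h2 := ih (fun a => Z a.succ) (fun a => hZ a.succ) h1
    intro a
    refine Fin.cases h0 (fun b => h2 b) a

open Classical in
/-- the sum of the `f s * m s` is at most the degree -/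
theorem pl {ι : Type*} [Fintype ι] (ω : ι → E → ℝ) (γ : ι → ℝ) (f : ι → ℕ) (hω : ∀ s, DVal k (ω s) (γ s) (f s))
    (hne : ∀ s t, s ≠ t → ¬ Prp (ω s) (ω t)) {V : Submodule k E} [FiniteDimensional k V] (hC : Crv V)
    (m : ι → ℕ) (L l' : E) (hL : L ∈ V) (hl' : l' ∈ V) (hL0 : L ≠ 0) (hl0 : l' ≠ 0) (hm : ∀ s, ω s (L / l') = m s * γ s) :
    ∃ δ : ℕ, ∀ n : ℕ, (∑ s, f s * m s) * (n + 1) ≤ finrank k ↥(V ^ (δ + n)) := by
  have hrv : ∀ s, RV k (ω s) := fun s => (hω s).rv
  have hnt : ∀ s, ¬ Triv (ω s) := by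
    intro s h
    obtain ⟨x, hx, hx1⟩ := (hω s).ex
    have := h x hx
    have := (hω s).γ0
    linarith
  choose p hp0 hp using fun s => (hω s).ex
  choose u hu using fun s => (hω s).res
  have hu0 : ∀ s j, u s j ≠ 0 ∧ ω s (u s j) = 0 := by
    intro s j
    have h1 := hu s (Pi.single j 1) (by
      intro h
      have := congrFun h j
      rw [Pi.single_eq_same] at this
      exact one_ne_zero this)
    have h2 : ∑ i, (Pi.single j (1 : k) : Fin (f s) → k) i • u s i = u s j := by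
      rw [Finset.sum_eq_single j]
      · rw [Pi.single_eq_same, one_smul]
      · intro b _ hb
        rw [Pi.single_eq_of_ne hb, zero_smul]
      · intro h; exact absurd (Finset.mem_univ _) h
    rwa [h2] at h1
  set I : Type _ := Σ s, Fin (m s) × Fin (f s) with hI
  obtain ⟨y, hy⟩ : ∃ y : I → E, ∀ i, y i = p i.1 ^ (i.2.1 : ℕ) * u i.1 i.2.2 := ⟨_, fun _ => rfl⟩
  have hy0 : ∀ i, y i ≠ 0 := fun i => by rw [hy]; exact mul_ne_zero (pow_ne_zero _ (hp0 _)) (hu0 _ _).1
  have hyv : ∀ i : I, ω i.1 (y i) = ((i.2.1 : ℕ) : ℝ) * γ i.1 := by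
    intro i
    rw [hy, (hrv i.1).mul _ _ (pow_ne_zero _ (hp0 _)) (hu0 _ _).1, rv_pow24 (hrv _) _ (hp0 _), hp, (hu0 _ _).2, add_zero]
  obtain ⟨B, hB1, hB2⟩ : ∃ B : ℝ, (∀ (i : I) t, |ω t (y i)| ≤ B) ∧ ∀ s, (m s : ℝ) * γ s ≤ B := by
    refine ⟨(∑ i : I, ∑ t, |ω t (y i)|) + ∑ s, (m s : ℝ) * γ s, fun i t => ?_, fun s => ?_⟩
    · have h1 : |ω t (y i)| ≤ ∑ t, |ω t (y i)| :=
        Finset.single_le_sum (f := fun t => |ω t (y i)|) (fun t _ => abs_nonneg _) (Finset.mem_univ t)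
      have h2 : ∑ t, |ω t (y i)| ≤ ∑ i : I, ∑ t, |ω t (y i)| :=
        Finset.single_le_sum (f := fun i => ∑ t, |ω t (y i)|) (fun i _ => Finset.sum_nonneg fun t _ => abs_nonneg _)
          (Finset.mem_univ i)
      have h3 : 0 ≤ ∑ s, (m s : ℝ) * γ s := Finset.sum_nonneg fun s _ => mul_nonneg (Nat.cast_nonneg _) (hω s).γ0.le
      linarith
    · have h1 : (m s : ℝ) * γ s ≤ ∑ s, (m s : ℝ) * γ s :=
        Finset.single_le_sum (f := fun s => (m s : ℝ) * γ s) (fun t _ => mul_nonneg (Nat.cast_nonneg _) (hω t).γ0.le)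
          (Finset.mem_univ s)
      have h2 : 0 ≤ ∑ i : I, ∑ t, |ω t (y i)| := Finset.sum_nonneg fun i _ => Finset.sum_nonneg fun t _ => abs_nonneg _
      linarith
  choose Y hY0 hY1 hY2 using fun s => approx ω hrv hnt hne s (2 * B)
  obtain ⟨x, hx⟩ : ∃ x : I → E, ∀ i, x i = y i * Y i.1 := ⟨_, fun _ => rfl⟩
  have hx0 : ∀ i, x i ≠ 0 := fun i => by rw [hx]; exact mul_ne_zero (hy0 i) (hY0 _)
  have hBs : ∀ s : ι, 0 ≤ B := fun s => (mul_nonneg (Nat.cast_nonneg _) (hω s).γ0.le).trans (hB2 s)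
  -- at the other places
  have F1 : ∀ (i : I) t, t ≠ i.1 → x i ∈ lev (hrv t) B := by
    intro i t ht
    right
    rw [hx, (hrv t).mul _ _ (hy0 i) (hY0 _)]
    have h1 := hY2 i.1 t ht
    have h2 := (abs_le.1 (hB1 i t)).1
    linarith
  have F2 : ∀ i : I, x i - y i ∈ lev (hrv i.1) B := by
    intro i
    have e1 : x i - y i = y i * (Y i.1 - 1) := by rw [hx]; ring
    rw [e1]
    by_cases h : Y i.1 = 1
    · left; rw [h, sub_self, mul_zero]
    · right
      rw [(hrv i.1).mul _ _ (hy0 i) (sub_ne_zero.2 h)]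
      have h1 := hY1 i.1 h
      have h2 := (abs_le.1 (hB1 i i.1)).1
      linarith
  have F3 : ∀ (i : I) t, x i ∈ lev (hrv t) 0 := by
    intro i t
    by_cases h : t = i.1
    · subst h
      have h1 : y i ∈ lev (hrv i.1) 0 := by
        right
        rw [hyv]
        exact mul_nonneg (Nat.cast_nonneg _) (hω i.1).γ0.le
      have h2 := lev_mono77 (hrv i.1) (hBs i.1) (F2 i)
      have e1 : x i = (x i - y i) + y i := by ring
      rw [e1]
      exact Submodule.add_mem _ h2 h1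
    · exact lev_mono77 (hrv t) (hBs t) (F1 i t h)
  -- claim A
  have hA : ∀ c : I → k, c ≠ 0 → ∃ s, ∑ i, c i • x i ≠ 0 ∧ ω s (∑ i, c i • x i) < m s * γ s := by
    intro c hc
    obtain ⟨i0, hi0⟩ : ∃ i, c i ≠ 0 := by
      by_contra h
      push Not at h
      exact hc (funext h)
    obtain ⟨s, b1, j1⟩ := i0
    obtain ⟨b0, hb0, hmin⟩ := Finset.exists_min_image (Finset.univ.filter fun b : Fin (m s) => ∃ j, c ⟨s, (b, j)⟩ ≠ 0) id
      ⟨b1, by rw [Finset.mem_filter]; exact ⟨Finset.mem_univ _, j1, hi0⟩⟩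
    rw [Finset.mem_filter] at hb0
    obtain ⟨-, j0, hj0⟩ := hb0
    have hγ := (hω s).γ0
    -- the leading part
    obtain ⟨U, hU⟩ : ∃ U, U = ∑ j, c ⟨s, (b0, j)⟩ • u s j := ⟨_, rfl⟩
    have hU1 := hu s (fun j => c ⟨s, (b0, j)⟩) (fun h => hj0 (congrFun h j0))
    rw [← hU] at hU1
    obtain ⟨T, hT⟩ : ∃ T : Finset I, T = Finset.univ.image (fun j : Fin (f s) => (⟨s, (b0, j)⟩ : I)) := ⟨_, rfl⟩
    have hTs : ∑ i ∈ T, c i • y i = p s ^ (b0 : ℕ) * U := by
      rw [hT, Finset.sum_image]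
      · rw [hU, Finset.mul_sum]
        refine Finset.sum_congr rfl fun j _ => ?_
        rw [hy, mul_smul_comm]
      · intro j _ j' _ h
        have h1 := (Sigma.mk.inj h).2
        have h2 := eq_of_heq h1
        exact (Prod.mk.inj h2).2
    have hlead : p s ^ (b0 : ℕ) * U ≠ 0 ∧ ω s (p s ^ (b0 : ℕ) * U) = ((b0 : ℕ) : ℝ) * γ s := by
      refine ⟨mul_ne_zero (pow_ne_zero _ (hp0 s)) hU1.1, ?_⟩
      rw [(hrv s).mul _ _ (pow_ne_zero _ (hp0 s)) hU1.1, rv_pow24 (hrv s) _ (hp0 s), hp, hU1.2, add_zero]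
    have hb0m : ((b0 : ℕ) : ℝ) + 1 ≤ m s := by exact_mod_cast b0.2
    have hBb : (((b0 : ℕ) : ℝ) + 1) * γ s ≤ B := (mul_le_mul_of_nonneg_right hb0m hγ.le).trans (hB2 s)
    have hrest : ∑ i, c i • x i - p s ^ (b0 : ℕ) * U ∈ lev (hrv s) ((((b0 : ℕ) : ℝ) + 1) * γ s) := by
      have e1 : ∑ i, c i • x i - p s ^ (b0 : ℕ) * U = ∑ i ∈ T, c i • (x i - y i) + ∑ i ∈ Finset.univ \ T, c i • x i := by
        rw [← hTs, ← Finset.sum_sdiff (Finset.subset_univ T)]
        simp only [smul_sub, Finset.sum_sub_distrib]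
        ring
      rw [e1]
      refine Submodule.add_mem _ (Submodule.sum_mem _ fun i hi => ?_) (Submodule.sum_mem _ fun i hi => ?_)
      · rw [hT] at hi
        obtain ⟨j, -, rfl⟩ := Finset.mem_image.1 hi
        exact Submodule.smul_mem _ _ (lev_mono77 (hrv s) hBb (F2 ⟨s, (b0, j)⟩))
      · have hiT := (Finset.mem_sdiff.1 hi).2
        obtain ⟨t, b, j⟩ := i
        by_cases hts : s = t
        · subst hts
          by_cases hbb : b = b0
          · subst hbb
            exfalso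
            apply hiT
            rw [hT]
            exact Finset.mem_image.2 ⟨j, Finset.mem_univ _, rfl⟩
          · rcases lt_or_gt_of_ne hbb with hlt | hgt
            · have : c ⟨s, (b, j)⟩ = 0 := by
                by_contra h
                have := hmin b (by rw [Finset.mem_filter]; exact ⟨Finset.mem_univ _, j, h⟩)
                exact absurd hlt (not_lt.2 this)
              rw [this, zero_smul]
              exact Submodule.zero_mem _
            · refine Submodule.smul_mem _ _ ?_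
              have e2 : x ⟨s, (b, j)⟩ = (x ⟨s, (b, j)⟩ - y ⟨s, (b, j)⟩) + y ⟨s, (b, j)⟩ := by ring
              rw [e2]
              refine Submodule.add_mem _ (lev_mono77 (hrv s) hBb (F2 ⟨s, (b, j)⟩)) (Or.inr ?_)
              have h1 := hyv ⟨s, (b, j)⟩
              simp only at h1
              rw [h1]
              refine mul_le_mul_of_nonneg_right ?_ hγ.le
              exact_mod_cast hgt
        · exact Submodule.smul_mem _ _ (lev_mono77 (hrv s) hBb (F1 ⟨t, (b, j)⟩ s hts))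
    have hfin := pert77 (hrv s) (a := ((b0 : ℕ) : ℝ) * γ s) (by nlinarith) hlead.1 hlead.2 hrest
    refine ⟨s, hfin.1, ?_⟩
    rw [hfin.2]
    exact lt_of_lt_of_le (by nlinarith) (mul_le_mul_of_nonneg_right hb0m hγ.le)
  -- the span
  obtain ⟨W, hW⟩ : ∃ W : Submodule k E, W = Submodule.span k (Set.range x) := ⟨_, rfl⟩
  have hWlev : ∀ s, ∀ z ∈ W, z ∈ lev (hrv s) 0 := by
    intro s z hz
    rw [hW] at hz
    have h1 : Submodule.span k (Set.range x) ≤ lev (hrv s) 0 := by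
      rw [Submodule.span_le]
      rintro _ ⟨i, rfl⟩
      exact F3 i s
    exact h1 hz
  have hWsm : ∀ z ∈ W, z ≠ 0 → ∃ s, ω s z < m s * γ s := by
    intro z hz hz0
    rw [hW] at hz
    obtain ⟨c, hc⟩ := (Submodule.mem_span_range_iff_exists_fun k).1 hz
    have hc0 : c ≠ 0 := by
      rintro rfl
      apply hz0
      rw [← hc]
      simp
    obtain ⟨s, -, h⟩ := hA c hc0
    rw [hc] at h
    exact ⟨s, h⟩
  have hxW : ∀ i, x i ∈ W := fun i => by rw [hW]; exact Submodule.subset_span ⟨i, rfl⟩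
  obtain ⟨t, ht⟩ : ∃ t, t = L / l' := ⟨_, rfl⟩
  have ht0 : t ≠ 0 := by rw [ht]; exact div_ne_zero hL0 hl0
  obtain ⟨δ, d, d1, d2, d3⟩ := comden77 hC (Finset.univ : Finset I) x
  refine ⟨δ, fun n => ?_⟩
  have : Module.Finite k ↥(V ^ (δ + n)) := by
    rw [Module.Finite.iff_fg]
    exact Submodule.FG.pow (Module.Finite.iff_fg.1 inferInstance) _
  have hlin : LinearIndependent k (fun q : I × Fin (n + 1) => d * x q.1 * (L ^ (q.2 : ℕ) * l' ^ (n - (q.2 : ℕ)))) := by
    rw [Fintype.linearIndependent_iff]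
    intro g hg
    have hfac : ∀ q : I × Fin (n + 1), d * x q.1 * (L ^ (q.2 : ℕ) * l' ^ (n - (q.2 : ℕ))) = d * l' ^ n * (x q.1 * t ^ (q.2 : ℕ)) := by
      intro q
      have h1 : (q.2 : ℕ) ≤ n := Nat.lt_succ_iff.1 q.2.2
      have h2 : l' ^ n = l' ^ (q.2 : ℕ) * l' ^ (n - (q.2 : ℕ)) := by rw [← pow_add]; congr 1; omega
      rw [ht, div_pow, h2]
      field_simp
    have h1 : d * l' ^ n * ∑ q : I × Fin (n + 1), g q • (x q.1 * t ^ (q.2 : ℕ)) = 0 := by
      rw [Finset.mul_sum, ← hg]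
      refine Finset.sum_congr rfl fun q _ => ?_
      rw [hfac, mul_smul_comm]
    have h2 := (mul_eq_zero.1 h1).resolve_left (mul_ne_zero d2 (pow_ne_zero _ hl0))
    rw [Fintype.sum_prod_type_right] at h2
    have h3 := indep77 ω hrv W t ht0 (fun s => m s * γ s) (fun s => by rw [ht]; exact hm s)
      (fun s => mul_nonneg (Nat.cast_nonneg _) (hω s).γ0.le) hWlev hWsm (n + 1) (fun a => ∑ i, g (i, a) • x i)
      (fun a => Submodule.sum_mem _ fun i _ => Submodule.smul_mem _ _ (hxW i)) (by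
        rw [← h2]
        refine Finset.sum_congr rfl fun a _ => ?_
        rw [Finset.sum_mul]
        refine Finset.sum_congr rfl fun i _ => ?_
        rw [smul_mul_assoc])
    rintro ⟨i, a⟩
    have h4 := h3 a
    by_contra h5
    obtain ⟨s, h6, -⟩ := hA (fun i => g (i, a)) (fun h => h5 (congrFun h i))
    exact h6 h4
  have hmem : ∀ q : I × Fin (n + 1), d * x q.1 * (L ^ (q.2 : ℕ) * l' ^ (n - (q.2 : ℕ))) ∈ V ^ (δ + n) := by
    intro q
    have h1 : (q.2 : ℕ) ≤ n := Nat.lt_succ_iff.1 q.2.2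
    have h3 : L ^ (q.2 : ℕ) * l' ^ (n - (q.2 : ℕ)) ∈ V ^ n := by
      have h4 : L ^ (q.2 : ℕ) * l' ^ (n - (q.2 : ℕ)) ∈ V ^ ((q.2 : ℕ) + (n - (q.2 : ℕ))) := by
        rw [pow_add]
        exact Submodule.mul_mem_mul (Submodule.pow_mem_pow V hL _) (Submodule.pow_mem_pow V hl' _)
      have e1 : (q.2 : ℕ) + (n - (q.2 : ℕ)) = n := by omega
      rwa [e1] at h4
    rw [pow_add]
    exact Submodule.mul_mem_mul (d3 q.1 (Finset.mem_univ _)) h3
  have hlin' : LinearIndependent k (fun q : I × Fin (n + 1) =>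
      (⟨d * x q.1 * (L ^ (q.2 : ℕ) * l' ^ (n - (q.2 : ℕ))), hmem q⟩ : ↥(V ^ (δ + n)))) := by
    refine LinearIndependent.of_comp (V ^ (δ + n)).subtype ?_
    exact hlin
  have hcard := hlin'.fintype_card_le_finrank
  have hcI : Fintype.card (I × Fin (n + 1)) = (∑ s, f s * m s) * (n + 1) := by
    rw [Fintype.card_prod, Fintype.card_sigma, Fintype.card_fin]
    congr 1
    refine Finset.sum_congr rfl fun s _ => ?_
    rw [Fintype.card_prod, Fintype.card_fin, Fintype.card_fin, mul_comm]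
  rw [hcI] at hcard
  exact hcard

end

end Pool.Agent.TRI
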