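import Pool.Agent.Helper77.TRI.Lim
import Pool.Agent.Helper31.TRI.Ultra
import Pool.Agent.Helper97.TRI.Generic

/-!
# TRI, block G8: two given relations, the curve is a line
-/

set_option autoImplicit false

namespace Pool.Agent.TRI

open Module MvPolynomial

universe u

section

variable {k₀ : Type u} [Field k₀] [CharZero k₀] {N : ℕ} {I : Ideal (MvPolynomial (Fin (N + 1)) k₀)}

/-- **G8: two given relations: the curve is a line** -/
theorem line_phi (hX : Surf I) {q : ℕ} (a b : Fin q → ℤ) (hab : LinearIndependent ℤ ![a, b]) (ha : ∑ i, a i = 0) (hb : ∑ i, b i = 0) :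
    ∃ Φ : MvPolynomial (Fin q × Fin (N + 1)) k₀, Φ ≠ 0 ∧ ∀ (E : Type u) [Field E] [Algebra k₀ E] (κ : IntermediateField k₀ E), AC κ →
      ∀ l : Fin q → Fin (N + 1) → κ, aeval (fun p : Fin q × Fin (N + 1) => l p.1 p.2) Φ ≠ 0 → ∀ ξ : Fin (N + 1) → E,
      (∃ j, ξ j = 1) → (∃ j, ξ j ∉ κ) → OnX I ξ → (∀ i, lv (l i) ξ ≠ 0) → wv l ξ a ∈ κ → wv l ξ b ∈ κ →
      finrank κ (Submodule.span κ (Set.range ξ)) ≤ 2 := by
  by_contra hcon
  have h : ∀ Φ : {Φ : MvPolynomial (Fin q × Fin (N + 1)) k₀ // Φ ≠ 0}, ∃ (E : Type u) (_ : Field E) (_ : Algebra k₀ E)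
      (κ : IntermediateField k₀ E) (l : Fin q → Fin (N + 1) → κ) (ξ : Fin (N + 1) → E), AC κ ∧
      aeval (fun p : Fin q × Fin (N + 1) => l p.1 p.2) Φ.1 ≠ 0 ∧ (∃ j, ξ j = 1) ∧ (∃ j, ξ j ∉ κ) ∧ OnX I ξ ∧
      (∀ i, lv (l i) ξ ≠ 0) ∧ wv l ξ a ∈ κ ∧ wv l ξ b ∈ κ ∧
      ∃ g : Fin 3 → Fin (N + 1), LinearIndependent κ fun i => ξ (g i) := by
    intro Φ
    by_contra h1
    apply hcon
    refine ⟨Φ.1, Φ.2, fun E _ _ κ hκ l hΦ ξ k1 k2 k3 k4 k5 k6 => ?_⟩
    by_contra k7
    exact h1 ⟨E, inferInstance, inferInstance, κ, l, ξ, hκ, hΦ, k1, k2, k3, k4, k5, k6, three77 ξ k7⟩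
  choose E hF hA κ l ξ hκ hΦ k1 k2 k3 k4 k5 k6 k7 using h
  obtain ⟨U, F, iF, iA, κ', π, hsur, hπ0, hπκ, hlin, hac⟩ := ultra E κ (fun j p => (l j p.1 p.2 : E j)) (by
    intro j h
    apply hΦ j
    have h1 : aeval (fun p : Fin q × Fin (N + 1) => ((l j p.1 p.2 : κ j) : E j)) j.1 =
        algebraMap (κ j) (E j) (aeval (fun p : Fin q × Fin (N + 1) => l j p.1 p.2) j.1) := by
      rw [← aeval_algebraMap_apply]
      rfl
    rw [h1] at h
    exact (map_eq_zero _).1 h)
  have hac' := hac hκ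
  -- the limits
  obtain ⟨l', hl'⟩ : ∃ l' : Fin q → Fin (N + 1) → κ', ∀ i c, ((l' i c : κ') : F) = π fun j => (l j i c : E j) :=
    ⟨fun i c => ⟨π fun j => (l j i c : E j), (hπκ _).2 (Filter.Eventually.of_forall fun j => (l j i c).2)⟩, fun i c => rfl⟩
  obtain ⟨y, hy⟩ : ∃ y : Fin (N + 1) → F, ∀ c, y c = π fun j => ξ j c := ⟨_, fun c => rfl⟩
  have y1 : ∃ c, y c = 1 := by
    obtain ⟨c, hc⟩ := uexists77 U (fun j c => ξ j c = 1) k1
    refine ⟨c, ?_⟩
    have h1 : π ((fun j => ξ j c) - 1) = 0 := (hπ0 _).2 (by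
      filter_upwards [hc] with j hj
      rw [Pi.sub_apply, hj, Pi.one_apply, sub_self])
    rw [map_sub, map_one, sub_eq_zero] at h1
    rw [hy, h1]
  have y2 : ∃ c, Transcendental κ' (y c) := by
    obtain ⟨c, hc⟩ := uexists77 U (fun j c => ξ j c ∉ κ j) k2
    refine ⟨c, fun halg => ?_⟩
    have h1 := hac' _ halg
    rw [hy, hπκ] at h1
    obtain ⟨j, hj1, hj2⟩ := (hc.and h1).exists
    exact hj1 hj2
  have y3 : OnX I y := by
    intro g hg
    have h1 : aeval y g = π (aeval (fun c => fun j => ξ j c) g) := by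
      rw [← AlgHom.comp_apply, comp_aeval]
      congr 2
      funext c
      exact hy c
    have h2 : aeval (fun c => fun j => ξ j c) g = (0 : ∀ j, E j) := by
      funext j
      have h3 : (Pi.evalAlgHom k₀ E j) (aeval (fun c => fun j => ξ j c) g) = aeval (ξ j) g := by
        rw [← AlgHom.comp_apply, comp_aeval]
        rfl
      have h4 := k3 j g hg
      rw [← h3] at h4
      exact h4
    rw [h1, h2, map_zero]
  have hlv : ∀ i, lv (l' i) y = π fun j => lv (l j i) (ξ j) := by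
    intro i
    have h1 : (fun j => lv (l j i) (ξ j)) = ∑ c, (fun j => (l j i c : E j)) * fun j => ξ j c := by
      funext j
      rw [Finset.sum_apply]
      rfl
    rw [h1, map_sum]
    unfold lv
    refine Finset.sum_congr rfl fun c _ => ?_
    rw [map_mul, ← hy, ← hl']
    rfl
  have y4 : ∀ i, lv (l' i) y ≠ 0 := by
    intro i h0
    rw [hlv, hπ0] at h0
    obtain ⟨j, hj⟩ := h0.exists
    exact k4 j i hj
  have hwv : ∀ e : Fin q → ℤ, wv l' y e = π fun j => wv (l j) (ξ j) e := by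
    intro e
    have h1 : (fun j => wv (l j) (ξ j) e) = ∏ i, fun j => lv (l j i) (ξ j) ^ e i := by
      funext j
      rw [Finset.prod_apply]
      rfl
    rw [h1, map_prod]
    unfold wv
    refine Finset.prod_congr rfl fun i _ => ?_
    rw [hlv]
    exact (zpow77 (π : (∀ j, E j) →+* F) (fun j => lv (l j i) (ξ j)) (fun j => k4 j i) (e i)).symm
  have y5 : wv l' y a ∈ κ' := by
    rw [hwv, hπκ]
    exact Filter.Eventually.of_forall k5
  have y6 : wv l' y b ∈ κ' := by
    rw [hwv, hπκ]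
    exact Filter.Eventually.of_forall k6
  have hlin' : AlgebraicIndependent k₀ fun p : Fin q × Fin (N + 1) => l' p.1 p.2 := by
    rw [← AlgHom.algebraicIndependent_iff κ'.val κ'.val.injective]
    have : (κ'.val ∘ fun p : Fin q × Fin (N + 1) => l' p.1 p.2) = fun p => π fun j => (l j p.1 p.2 : E j) := by
      funext p
      exact hl' p.1 p.2
    rw [this]
    exact hlin
  have hfr := line_at77 (k₀ := k₀) (M := κ') (F := F) l' hlin' y y1 (trdeg_le hX y y1 y3) y2 y4 a b hab ⟨_, y5⟩ ⟨_, y6⟩ rfl rfl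
  -- three coordinates
  obtain ⟨g, hg⟩ := uexists77 U (fun j (g : Fin 3 → Fin (N + 1)) => LinearIndependent (κ j) fun i => ξ j (g i)) k7
  have hdep : ¬ LinearIndependent κ' (fun i => y (g i)) := by
    intro hind
    have h1 : Fintype.card (Fin 3) ≤ finrank κ' (Submodule.span κ' (Set.range fun i => y (g i))) := by
      rw [finrank_span_eq_card hind]
    have h2 : finrank κ' (Submodule.span κ' (Set.range fun i => y (g i))) ≤ finrank κ' (Submodule.span κ' (Set.range y)) := by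
      have : Module.Finite κ' (Submodule.span κ' (Set.range y)) := FiniteDimensional.span_of_finite κ' (Set.finite_range y)
      refine Submodule.finrank_mono (Submodule.span_mono ?_)
      rintro _ ⟨i, rfl⟩
      exact ⟨g i, rfl⟩
    rw [Fintype.card_fin] at h1
    omega
  rw [Fintype.not_linearIndependent_iff] at hdep
  obtain ⟨s, hs, i0, hi0⟩ := hdep
  choose x hx using fun i => hsur (s i : F)
  have f1 : ∀ᶠ j in (U : Filter _), ∀ i, x i j ∈ κ j := by
    rw [Filter.eventually_all]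
    intro i
    rw [← hπκ, hx]
    exact (s i).2
  have f2 : ∀ᶠ j in (U : Filter _), ∑ i, x i j * ξ j (g i) = 0 := by
    have h1 : π (∑ i, x i * fun j => ξ j (g i)) = 0 := by
      rw [map_sum, ← hs]
      refine Finset.sum_congr rfl fun i _ => ?_
      rw [map_mul, hx, ← hy]
      rfl
    rw [hπ0] at h1
    filter_upwards [h1] with j hj
    rw [← hj, Finset.sum_apply]
    rfl
  have f3 : ∀ᶠ j in (U : Filter _), x i0 j ≠ 0 := by
    refine Ultrafilter.eventually_not.2 fun h => hi0 ?_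
    rw [← hπ0, hx] at h
    exact Subtype.ext h
  obtain ⟨j, ⟨⟨hj1, hj2⟩, hj3⟩, hj4⟩ := (((f1.and f2).and f3).and hg).exists
  rw [Fintype.linearIndependent_iff] at hj4
  have h8 := hj4 (fun i => ⟨x i j, hj1 i⟩) (by
    rw [← hj2]
    rfl) i0
  exact hj3 (congrArg Subtype.val h8)

end

end Pool.Agent.TRI
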